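import Pool.Agent.H97.EHD.Proj

/-!
Board ehd_modules: domination of tensors (row RDA).
-/

namespace Pool.Agent.H97.EHD

open scoped BigOperators ComplexConjugate ContDiff ComplexOrder
open MeasureTheory Pool.Agent.H92.EQ Pool.Agent.H92.EHD

noncomputable section

variable {N : ℕ}

lemma psd_two {α : Type} [Fintype α] [DecidableEq α] (T : α → α → ℂ)
    (h : ∀ c : α → ℂ, 0 ≤ ∑ I, ∑ J, c I * conj (c J) * T I J) (a b : ℂ) (I J : α) :
    0 ≤ a * conj a * T I I - a * conj b * T I J - b * conj a * T J I + b * conj b * T J J := by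
  have h1 := h (fun K => a * (if K = I then 1 else 0) - b * (if K = J then 1 else 0))
  have h2 : ∑ K, ∑ L, (a * (if K = I then 1 else 0) - b * (if K = J then 1 else 0)) *
      conj (a * (if L = I then 1 else 0) - b * (if L = J then 1 else 0)) * T K L =
      a * conj a * T I I - a * conj b * T I J - b * conj a * T J I + b * conj b * T J J := by
    have h3 : ∀ K, ∑ L, (a * (if K = I then 1 else 0) - b * (if K = J then 1 else 0)) *
      conj (a * (if L = I then 1 else 0) - b * (if L = J then 1 else 0)) * T K L =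
      (a * (if K = I then 1 else 0) - b * (if K = J then 1 else 0)) *
        (conj a * T K I - conj b * T K J) := by
      intro K
      simp only [mul_assoc]
      rw [← Finset.mul_sum]
      congr 1
      simp only [map_sub, map_mul, sub_mul, Finset.sum_sub_distrib]
      congr 1
      · simp [apply_ite, mul_ite, ite_mul]
      · simp [apply_ite, mul_ite, ite_mul]
    rw [Finset.sum_congr rfl fun K _ => h3 K]
    simp only [sub_mul, mul_assoc, Finset.sum_sub_distrib, ← Finset.mul_sum, ite_mul, one_mul,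
      zero_mul]
    rw [Finset.sum_ite_eq' Finset.univ I, Finset.sum_ite_eq' Finset.univ J,
      if_pos (Finset.mem_univ _), if_pos (Finset.mem_univ _)]
    ring
  rw [← h2]
  exact h1

lemma psd_tr {α : Type} [Fintype α] [DecidableEq α] (T : α → α → ℂ)
    (h : ∀ c : α → ℂ, 0 ≤ ∑ I, ∑ J, c I * conj (c J) * T I J) (d : α → ℂ) :
    ∑ I, ∑ J, d I * conj (d J) * T I J ≤
      ((∑ I, (T I I).re : ℝ) : ℂ) * ∑ I, d I * conj (d I) := by
  have h0 : ∀ I, ((T I I).re : ℂ) = T I I := by
    intro I
    have h1 := psd_two T h 1 0 I I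
    have h2 : 0 ≤ T I I := by simpa using h1
    exact (Complex.eq_re_of_ofReal_le h2).symm
  have h1 : ((∑ I, (T I I).re : ℝ) : ℂ) = ∑ I, T I I := by
    push_cast
    exact Finset.sum_congr rfl fun I _ => h0 I
  rw [h1]
  have h2 : 0 ≤ ∑ I, ∑ J, (conj (d J) * conj (conj (d J)) * T I I -
      conj (d J) * conj (conj (d I)) * T I J - conj (d I) * conj (conj (d J)) * T J I +
      conj (d I) * conj (conj (d I)) * T J J) :=
    Finset.sum_nonneg fun I _ => Finset.sum_nonneg fun J _ => psd_two T h _ _ I J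
  simp only [Complex.conj_conj, Finset.sum_add_distrib, Finset.sum_sub_distrib] at h2
  have h3 : ∑ I, ∑ J, conj (d J) * d J * T I I = (∑ I, T I I) * ∑ I, d I * conj (d I) := by
    rw [Finset.sum_mul]
    refine Finset.sum_congr rfl fun I _ => ?_
    rw [Finset.mul_sum]
    refine Finset.sum_congr rfl fun J _ => ?_
    ring
  have h4 : ∑ I, ∑ J, conj (d I) * d I * T J J = (∑ I, T I I) * ∑ I, d I * conj (d I) := by
    rw [Finset.sum_comm, ← h3]
  have h5 : ∑ I, ∑ J, conj (d J) * d I * T I J = ∑ I, ∑ J, d I * conj (d J) * T I J :=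
    Finset.sum_congr rfl fun I _ => Finset.sum_congr rfl fun J _ => by ring
  have h6 : ∑ I, ∑ J, conj (d I) * d J * T J I = ∑ I, ∑ J, d I * conj (d J) * T I J := by
    rw [Finset.sum_comm, ← h5]
  rw [h3, h4, h5, h6] at h2
  have h7 : (0 : ℂ) ≤ 2⁻¹ * ((∑ I, T I I) * (∑ I, d I * conj (d I)) -
      ∑ I, ∑ J, d I * conj (d J) * T I J - ∑ I, ∑ J, d I * conj (d J) * T I J +
      (∑ I, T I I) * ∑ I, d I * conj (d I)) := by
    apply mul_nonneg _ h2
    rw [show (2⁻¹ : ℂ) = ((2⁻¹ : ℝ) : ℂ) by push_cast; rfl]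
    exact_mod_cast (by norm_num : (0 : ℝ) ≤ 2⁻¹)
  rw [← sub_nonneg]
  refine le_of_le_of_eq h7 ?_
  ring

theorem pf_RDA (hW9 : T_W9) : T_RDA := by
  intro N s _
  refine ⟨2 ^ s, by positivity, ?_⟩
  intro y W hy hW c
  set f : ℂ := (s.factorial : ℂ) with hf
  have hf0 : f ≠ 0 := by
    rw [hf]
    exact_mod_cast Nat.factorial_ne_zero s
  have hfr : conj f = f := by rw [hf]; exact Complex.conj_natCast _
  set d : (Fin s → Fin N) → ℂ := fun K => ∑ I, c I * DD y s I K with hd
  have hdc : ∀ K, conj (d K) = ∑ J, conj (c J) * DD y s K J := by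
    intro K
    rw [hd]
    simp only [map_sum, map_mul, DD_conj]
  have hleft : ∀ V : (Fin s → Fin N) → ℂ, Kil y V → Alt V →
      ∑ K, d K * V K = f * ∑ I, c I * V I := by
    intro V h1 h2
    rw [hd]
    simp only [Finset.sum_mul]
    rw [Finset.sum_comm, Finset.mul_sum]
    refine Finset.sum_congr rfl fun I _ => ?_
    have h3 := fix_DD V h1 h2 I
    simp only [mul_assoc]
    rw [← Finset.mul_sum, h3]
    ring
  -- the form of `D`
  have hB1 : f * ∑ I, ∑ J, c I * conj (c J) * DD y s I J = ∑ K, d K * conj (d K) := by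
    simp only [hdc, Finset.mul_sum]
    rw [Finset.sum_comm]
    have h4 : ∀ J, ∑ K, d K * (conj (c J) * DD y s K J) =
        ∑ I, f * (c I * conj (c J) * DD y s I J) := by
      intro J
      have h5 := hleft (fun K => DD y s K J) (DD_kil hy s J) (DD_alt y s J)
      have h6 : ∑ K, d K * (conj (c J) * DD y s K J) =
          conj (c J) * ∑ K, d K * DD y s K J := by
        rw [Finset.mul_sum]
        refine Finset.sum_congr rfl fun K _ => ?_
        ring
      rw [h6, h5, Finset.mul_sum, Finset.mul_sum]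
      refine Finset.sum_congr rfl fun I _ => ?_
      ring
    rw [Finset.sum_comm (f := fun K J => d K * (conj (c J) * DD y s K J))]
    exact Finset.sum_congr rfl fun J _ => (h4 J).symm
  -- the form of `W`
  have hkl : ∀ J, Kil y (fun I => W I J) := fun J I j => hW.kilL I J j
  have hal : ∀ J, Alt (fun I => W I J) := fun J π I => hW.altL π I J
  have hkr : ∀ I, Kil y (fun J => conj (W I J)) := by
    intro I J j
    have h1 := hW.kilR I J j
    have h2 := congrArg conj h1
    rw [map_sum, map_zero] at h2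
    rw [← h2]
    refine Finset.sum_congr rfl fun a _ => ?_
    rw [map_mul, Complex.conj_conj]
  have har : ∀ I, Alt (fun J => conj (W I J)) := by
    intro I π J
    show conj (W I (J ∘ π)) = _
    rw [hW.altR π I J, map_mul]
    congr 1
    exact map_intCast (starRingEnd ℂ) _
  have hB2 : f ^ 2 * ∑ I, ∑ J, c I * conj (c J) * W I J =
      ∑ K, ∑ L, d K * conj (d L) * W K L := by
    have h1 : ∀ L, ∑ K, d K * conj (d L) * W K L = f * (conj (d L) * ∑ I, c I * W I L) := by
      intro L
      have h2 := hleft _ (hkl L) (hal L)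
      have h3 : ∑ K, d K * conj (d L) * W K L = conj (d L) * ∑ K, d K * W K L := by
        rw [Finset.mul_sum]
        refine Finset.sum_congr rfl fun K _ => ?_
        ring
      rw [h3, h2]
      ring
    rw [Finset.sum_comm (f := fun K L => d K * conj (d L) * W K L)]
    rw [Finset.sum_congr rfl fun L _ => h1 L, ← Finset.mul_sum]
    have h4 : ∀ I, ∑ L, conj (d L) * W I L = f * ∑ J, conj (c J) * W I J := by
      intro I
      have h5 := hleft _ (hkr I) (har I)
      have h6 := congrArg conj h5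
      rw [map_mul, hfr, map_sum, map_sum] at h6
      simp only [map_mul, Complex.conj_conj] at h6
      exact h6
    have h7 : ∑ L, conj (d L) * ∑ I, c I * W I L =
        ∑ I, c I * (f * ∑ J, conj (c J) * W I J) := by
      simp only [Finset.mul_sum]
      rw [Finset.sum_comm]
      refine Finset.sum_congr rfl fun I _ => ?_
      have h8 := h4 I
      rw [← Finset.mul_sum]
      have h9 : ∑ L, conj (d L) * (c I * W I L) = c I * ∑ L, conj (d L) * W I L := by
        rw [Finset.mul_sum]
        refine Finset.sum_congr rfl fun K _ => ?_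
        ring
      rw [h9, h8, Finset.mul_sum]
    rw [h7, pow_two, mul_assoc]
    congr 1
    rw [Finset.mul_sum]
    refine Finset.sum_congr rfl fun I _ => ?_
    rw [Finset.mul_sum, Finset.mul_sum, Finset.mul_sum]
    refine Finset.sum_congr rfl fun J _ => ?_
    ring
  have hP := psd_tr W hW.psd d
  rw [← hB1, ← hB2, ← sub_nonneg] at hP
  have hfi : (0 : ℂ) ≤ (f ^ 2)⁻¹ := by
    have h1 : (f ^ 2)⁻¹ = (((((s.factorial : ℝ)) ^ 2)⁻¹ : ℝ) : ℂ) := by
      rw [hf]; push_cast; rfl
    rw [h1]
    exact_mod_cast (by positivity : (0 : ℝ) ≤ ((s.factorial : ℝ) ^ 2)⁻¹)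
  have hQ := mul_nonneg hfi hP
  refine le_of_le_of_eq hQ ?_
  have h1 : ∀ I J, (((2 ^ s * trF W * nsq y ^ s : ℝ) : ℂ) * om N s y I J) =
      ((trF W : ℝ) : ℂ) * f⁻¹ * DD y s I J := by
    intro I J
    rw [← om_DD hW9 hy s I J]
    push_cast
    rw [← hf]
    field_simp
  simp only [h1, mul_sub, Finset.sum_sub_distrib]
  have h2 : ∑ I, ∑ J, c I * conj (c J) * (((trF W : ℝ) : ℂ) * f⁻¹ * DD y s I J) =
      ((trF W : ℝ) : ℂ) * f⁻¹ * ∑ I, ∑ J, c I * conj (c J) * DD y s I J := by
    rw [Finset.mul_sum]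
    refine Finset.sum_congr rfl fun I _ => ?_
    rw [Finset.mul_sum]
    refine Finset.sum_congr rfl fun J _ => ?_
    ring
  rw [h2]
  have h3 : ((∑ I, (W I I).re : ℝ) : ℂ) = ((trF W : ℝ) : ℂ) := rfl
  rw [h3]
  field_simp

end

end Pool.Agent.H97.EHD
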