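import Pool.Agent.H97.EHD.Proj

/-!
Board ehd_modules: the trace is bounded by the trace density (row RTR).
-/

namespace Pool.Agent.H97.EHD

open scoped BigOperators ComplexConjugate ContDiff ComplexOrder
open MeasureTheory Pool.Agent.H92.EQ Pool.Agent.H92.EHD

noncomputable section

variable {N p q m : ℕ}

/-- The radial projection. -/
def RR (y : Fin N → ℂ) : Matrix (Fin N) (Fin N) ℂ :=
  out (fun a => conj (y a) / (nsq y : ℂ)) y

lemma one_eq (y : Fin N → ℂ) : (1 : Matrix (Fin N) (Fin N) ℂ) = PJ y + RR y := by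
  ext a b
  rw [Matrix.add_apply, Matrix.one_apply]
  unfold PJ RR out
  ring

lemma mix_R (hA1 : T_A1) (hA10 : T_A10) (y : Fin N → ℂ)
    (T : (Fin p → Fin N) → (Fin p → Fin N) → ℂ) (j0 : Fin m) (A : Finset (Fin m)) :
    j0 ∉ A → mixD T (fun j => if j = j0 then RR y else if j ∈ A then 1 else PJ y) =
      mixD T (fun j => if j = j0 then RR y else PJ y) := by
  induction A using Finset.induction_on with
  | empty =>
    intro _
    congr 1
  | insert j1 A hj1 ih =>
    intro h0
    rw [Finset.mem_insert, not_or] at h0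
    have h1 := ih h0.2
    set H : Fin m → Matrix (Fin N) (Fin N) ℂ :=
      fun j => if j = j0 then RR y else if j ∈ A then 1 else PJ y with hH
    have h2 : (fun j => if j = j0 then RR y else if j ∈ insert j1 A then 1 else PJ y) =
        Function.update H j1 (PJ y + RR y) := by
      ext1 j
      by_cases hj : j = j1
      · rw [hj, Function.update_self, if_neg (Ne.symm h0.1), if_pos (Finset.mem_insert_self _ _),
          ← one_eq]
      · rw [Function.update_of_ne hj, hH]
        simp only [Finset.mem_insert, hj, false_or]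
    have h3 : Function.update H j1 (PJ y) = H := by
      apply Function.update_eq_self_iff.2
      rw [hH]
      simp only [Ne.symm h0.1, if_false, hj1]
    have h4 : mixD T (Function.update H j1 (RR y)) = 0 := by
      refine (hA10 (Fin N) p m T (Function.update H j1 (RR y)) j0 j1
        (fun a => conj (y a) / (nsq y : ℂ)) y y h0.1).1 ?_ ?_
      · rw [Function.update_of_ne h0.1, hH]
        simp only [if_true]
        rfl
      · rw [Function.update_self]
        rfl
    rw [h2, (hA1 (Fin N) p m T T H j1 (PJ y) (RR y) 1).1, h3, h4, add_zero]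
    exact h1

lemma mix_swap (hA2 : T_A2) (y : Fin N → ℂ)
    (T : (Fin p → Fin N) → (Fin p → Fin N) → ℂ) (j0 j1 : Fin m) :
    mixD T (fun j => if j = j0 then RR y else PJ y) =
      mixD T (fun j => if j = j1 then RR y else PJ y) := by
  have h := hA2 (Fin N) p m T (fun j => if j = j1 then RR y else PJ y) (Equiv.swap j0 j1)
  rw [← h]
  congr 1
  ext1 j
  have h1 : Equiv.swap j0 j1 j = j1 ↔ j = j0 := by
    rw [Equiv.swap_apply_eq_iff, Equiv.swap_apply_right]
  simp only [h1]

lemma mix_one (hA1 : T_A1) (hA2 : T_A2) (hA7 : T_A7) (hA10 : T_A10) {y : Fin N → ℂ}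
    (hy : y ≠ 0) (T : (Fin p → Fin N) → (Fin p → Fin N) → ℂ) (hT : KilL y T) (j1 : Fin m)
    (A : Finset (Fin m)) :
    mixD T (fun j => if j ∈ A then 1 else PJ y) =
      (A.card : ℂ) * mixD T (fun j => if j = j1 then RR y else PJ y) := by
  induction A using Finset.induction_on with
  | empty =>
    rw [Finset.card_empty, Nat.cast_zero, zero_mul]
    apply hA7 (Fin N) p m T _ y hy hT
    intro j
    rw [if_neg (Finset.notMem_empty j)]
    exact PJ_kill hy
  | insert j0 A hj0 ih =>
    set H : Fin m → Matrix (Fin N) (Fin N) ℂ := fun j => if j ∈ A then 1 else PJ y with hH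
    have h2 : (fun j => if j ∈ insert j0 A then 1 else PJ y) =
        Function.update H j0 (PJ y + RR y) := by
      ext1 j
      by_cases hj : j = j0
      · rw [hj, Function.update_self, if_pos (Finset.mem_insert_self _ _), ← one_eq]
      · rw [Function.update_of_ne hj, hH]
        simp only [Finset.mem_insert, hj, false_or]
    have h3 : Function.update H j0 (PJ y) = H := by
      apply Function.update_eq_self_iff.2
      rw [hH]
      simp only [if_false, hj0]
    have h4 : Function.update H j0 (RR y) =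
        (fun j => if j = j0 then RR y else if j ∈ A then 1 else PJ y) := by
      ext1 j
      by_cases hj : j = j0
      · rw [hj, Function.update_self, if_pos rfl]
      · rw [Function.update_of_ne hj, if_neg hj]
    rw [h2, (hA1 (Fin N) p m T T H j0 (PJ y) (RR y) 1).1, h3, h4, mix_R hA1 hA10 y T j0 A hj0,
      mix_swap hA2 y T j0 j1, ih, Finset.card_insert_of_notMem hj0]
    push_cast
    ring

lemma mix_smul (T : (Fin p → Fin N) → (Fin p → Fin N) → ℂ) (c : Fin m → ℂ)
    (H : Fin m → Matrix (Fin N) (Fin N) ℂ) :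
    mixD T (fun j => c j • H j) = (∏ j, c j) * mixD T H := by
  unfold mixD
  rw [Finset.mul_sum]
  refine Finset.sum_congr rfl fun e _ => ?_
  rw [Finset.mul_sum]
  refine Finset.sum_congr rfl fun e' _ => ?_
  simp only [Matrix.smul_apply, smul_eq_mul, Finset.prod_mul_distrib]
  ring

lemma inner_sum (T : (Fin p → Fin N) → (Fin p → Fin N) → ℂ)
    (hT : ∀ (π : Equiv.Perm (Fin p)) I J, T I (J ∘ π) = ((Equiv.Perm.sign π : ℤ) : ℂ) * T I J)
    (e : (Fin p ⊕ Fin m) ≃ Fin N) :
    ∑ e' : (Fin p ⊕ Fin m) ≃ Fin N, ((Equiv.Perm.sign (e.trans e'.symm) : ℤ) : ℂ) *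
      T (fun i => e (Sum.inl i)) (fun i => e' (Sum.inl i)) *
      ∏ j, (1 : Matrix (Fin N) (Fin N) ℂ) (e (Sum.inr j)) (e' (Sum.inr j)) =
    (p.factorial : ℂ) * T (fun i => e (Sum.inl i)) (fun i => e (Sum.inl i)) := by
  set φ : Equiv.Perm (Fin p) → ((Fin p ⊕ Fin m) ≃ Fin N) :=
    fun π => (Equiv.sumCongr π (Equiv.refl (Fin m))).trans e with hφ
  have hinj : Function.Injective φ := by
    intro π π' h
    ext1 i
    have h1 := congrArg (fun f : (Fin p ⊕ Fin m) ≃ Fin N => f (Sum.inl i)) h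
    simp only [hφ, Equiv.trans_apply, Equiv.sumCongr_apply, Sum.map_inl] at h1
    exact Sum.inl_injective (e.injective h1)
  have hsub : ∑ e' : (Fin p ⊕ Fin m) ≃ Fin N, ((Equiv.Perm.sign (e.trans e'.symm) : ℤ) : ℂ) *
      T (fun i => e (Sum.inl i)) (fun i => e' (Sum.inl i)) *
      ∏ j, (1 : Matrix (Fin N) (Fin N) ℂ) (e (Sum.inr j)) (e' (Sum.inr j)) =
      ∑ e' ∈ Finset.univ.image φ, ((Equiv.Perm.sign (e.trans e'.symm) : ℤ) : ℂ) *
      T (fun i => e (Sum.inl i)) (fun i => e' (Sum.inl i)) *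
      ∏ j, (1 : Matrix (Fin N) (Fin N) ℂ) (e (Sum.inr j)) (e' (Sum.inr j)) := by
    symm
    apply Finset.sum_subset (Finset.subset_univ _)
    intro e' _ he'
    by_cases h : ∀ j, e (Sum.inr j) = e' (Sum.inr j)
    · exfalso
      apply he'
      rw [Finset.mem_image]
      have hfix : ∀ j, (e'.trans e.symm) (Sum.inr j) = Sum.inr j := by
        intro j
        rw [Equiv.trans_apply, ← h j, Equiv.symm_apply_apply]
      have hmap : Set.MapsTo (e'.trans e.symm) (Set.range Sum.inl) (Set.range Sum.inl) := by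
        rintro _ ⟨i, rfl⟩
        rcases hx : (e'.trans e.symm) (Sum.inl i) with i' | j
        · exact ⟨i', rfl⟩
        · have h1 : (e'.trans e.symm) (Sum.inl i) = (e'.trans e.symm) (Sum.inr j) := by
            rw [hx, hfix]
          have h2 := (e'.trans e.symm).injective h1
          cases h2
      obtain ⟨⟨π1, π2⟩, hπ⟩ := Equiv.Perm.mem_sumCongrHom_range_of_perm_mapsTo_inl hmap
      refine ⟨π1, Finset.mem_univ _, ?_⟩
      ext1 x
      have hx : ∀ x, e' x = e (Equiv.Perm.sumCongrHom (Fin p) (Fin m) (π1, π2) x) := by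
        intro x
        rw [hπ, Equiv.trans_apply, Equiv.apply_symm_apply]
      rcases x with i | j
      · rw [hx]
        rfl
      · rw [← h j]
        rfl
    · obtain ⟨j, hj⟩ := not_forall.1 h
      have h1 : ∏ j, (1 : Matrix (Fin N) (Fin N) ℂ) (e (Sum.inr j)) (e' (Sum.inr j)) = 0 :=
        Finset.prod_eq_zero (Finset.mem_univ j) (Matrix.one_apply_ne hj)
      rw [h1, mul_zero]
  rw [hsub, Finset.sum_image (fun π _ π' _ h => hinj h)]
  have hterm : ∀ π : Equiv.Perm (Fin p),
      ((Equiv.Perm.sign (e.trans (φ π).symm) : ℤ) : ℂ) *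
      T (fun i => e (Sum.inl i)) (fun i => φ π (Sum.inl i)) *
      ∏ j, (1 : Matrix (Fin N) (Fin N) ℂ) (e (Sum.inr j)) (φ π (Sum.inr j)) =
      T (fun i => e (Sum.inl i)) (fun i => e (Sum.inl i)) := by
    intro π
    have h1 : e.trans (φ π).symm = (Equiv.sumCongr π (Equiv.refl (Fin m))).symm := by
      ext1 x
      simp [hφ]
    have h2 : Equiv.Perm.sign (e.trans (φ π).symm) = Equiv.Perm.sign π := by
      rw [h1, Equiv.Perm.sign_symm]
      have := Equiv.Perm.sign_sumCongr π (1 : Equiv.Perm (Fin m))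
      rw [Equiv.Perm.sign_one, mul_one] at this
      exact this
    have h3 : T (fun i => e (Sum.inl i)) (fun i => φ π (Sum.inl i)) =
        ((Equiv.Perm.sign π : ℤ) : ℂ) * T (fun i => e (Sum.inl i)) (fun i => e (Sum.inl i)) :=
      hT π (fun i => e (Sum.inl i)) (fun i => e (Sum.inl i))
    have h4 : ∏ j, (1 : Matrix (Fin N) (Fin N) ℂ) (e (Sum.inr j)) (φ π (Sum.inr j)) = 1 := by
      apply Finset.prod_eq_one
      intro j _
      have : φ π (Sum.inr j) = e (Sum.inr j) := rfl
      rw [this, Matrix.one_apply_eq]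
    rw [h2, h3, h4, mul_one, ← mul_assoc, sgn_mul, one_mul]
  rw [Finset.sum_congr rfl fun π _ => hterm π, Finset.sum_const, Finset.card_univ,
    Fintype.card_perm, Fintype.card_fin, nsmul_eq_mul]

lemma mix_id (T : (Fin p → Fin N) → (Fin p → Fin N) → ℂ)
    (hT : ∀ (π : Equiv.Perm (Fin p)) I J,
      T I (J ∘ π) = ((Equiv.Perm.sign π : ℤ) : ℂ) * T I J) :
    mixD T (fun _ : Fin m => (1 : Matrix (Fin N) (Fin N) ℂ)) =
      (p.factorial : ℂ) * ∑ e : (Fin p ⊕ Fin m) ≃ Fin N,
        T (fun i => e (Sum.inl i)) (fun i => e (Sum.inl i)) := by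
  unfold mixD
  rw [Finset.mul_sum]
  exact Finset.sum_congr rfl fun e _ => inner_sum T hT e

lemma extend (hN : p + m = N) (I : Fin p → Fin N) (hI : Function.Injective I) :
    ∃ e : (Fin p ⊕ Fin m) ≃ Fin N, ∀ i, e (Sum.inl i) = I i := by
  classical
  have h1 : Fintype.card (Set.range I) = p := by
    rw [Set.card_range_of_injective hI, Fintype.card_fin]
  have h2 : Fintype.card ((Set.range I)ᶜ : Set (Fin N)) = m := by
    rw [Fintype.card_compl_set, h1, Fintype.card_fin]
    omega
  have e2 : Fin m ≃ ((Set.range I)ᶜ : Set (Fin N)) :=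
    Fintype.equivOfCardEq (by rw [h2, Fintype.card_fin])
  refine ⟨(Equiv.sumCongr (Equiv.ofInjective I hI) e2).trans (Equiv.Set.sumCompl _), ?_⟩
  intro i
  rw [Equiv.trans_apply, Equiv.sumCongr_apply, Sum.map_inl, Equiv.Set.sumCompl_apply_inl,
    Equiv.ofInjective_apply]

lemma diag_nonneg (T : (Fin p → Fin N) → (Fin p → Fin N) → ℂ) (hP : Psd T)
    (I : Fin p → Fin N) : 0 ≤ (T I I).re := by
  classical
  have h := hP (Pi.single I 1)
  have h1 : ∑ I', ∑ J', (Pi.single I 1 : (Fin p → Fin N) → ℂ) I' *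
      conj ((Pi.single I 1 : (Fin p → Fin N) → ℂ) J') * T I' J' = T I I := by
    rw [Finset.sum_eq_single I, Finset.sum_eq_single I]
    · simp
    · intro J _ hJ
      simp [hJ]
    · intro h; exact absurd (Finset.mem_univ _) h
    · intro J _ hJ
      simp [hJ]
    · intro h; exact absurd (Finset.mem_univ _) h
  rw [h1] at h
  exact (Complex.nonneg_iff.1 h).1

lemma tr_le (hN : p + m = N) (T : (Fin p → Fin N) → (Fin p → Fin N) → ℂ) (hP : Psd T)
    (hT : ∀ (π : Equiv.Perm (Fin p)) I J,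
      T I (J ∘ π) = ((Equiv.Perm.sign π : ℤ) : ℂ) * T I J) :
    trF T ≤ ∑ e : (Fin p ⊕ Fin m) ≃ Fin N,
        (T (fun i => e (Sum.inl i)) (fun i => e (Sum.inl i))).re := by
  classical
  have h0 : ∀ I : Fin p → Fin N, ¬ Function.Injective I → T I I = 0 := by
    intro I hI
    obtain ⟨a, b, hab, hne⟩ := Function.not_injective_iff.1 hI
    have h1 := hT (Equiv.swap a b) I I
    have h2 : I ∘ (Equiv.swap a b) = I := by
      ext1 x
      rw [Function.comp_apply]
      rcases eq_or_ne x a with rfl | hx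
      · rw [Equiv.swap_apply_left, hab]
      · rcases eq_or_ne x b with rfl | hx'
        · rw [Equiv.swap_apply_right, hab]
        · rw [Equiv.swap_apply_of_ne_of_ne hx hx']
    rw [h2, Equiv.Perm.sign_swap hne] at h1
    push_cast at h1
    have h3 : (2 : ℂ) * T I I = 0 := by linear_combination h1
    exact (mul_eq_zero.1 h3).resolve_left two_ne_zero
  set g : {I : Fin p → Fin N // Function.Injective I} → ((Fin p ⊕ Fin m) ≃ Fin N) :=
    fun I => (extend hN I.1 I.2).choose with hg
  have hgs : ∀ I i, g I (Sum.inl i) = I.1 i := fun I => (extend hN I.1 I.2).choose_spec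
  have hginj : Function.Injective g := by
    intro I I' h
    apply Subtype.ext
    ext1 i
    rw [← hgs I i, ← hgs I' i, h]
  unfold trF
  have h1 : ∑ I, (T I I).re = ∑ I : {I : Fin p → Fin N // Function.Injective I},
      (T I.1 I.1).re := by
    rw [← Finset.sum_filter_add_sum_filter_not Finset.univ
      (fun I : Fin p → Fin N => Function.Injective I)]
    have h2 : ∑ I ∈ Finset.univ.filter (fun I : Fin p → Fin N => ¬ Function.Injective I),
        (T I I).re = 0 := by
      apply Finset.sum_eq_zero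
      intro I hI
      rw [h0 I (Finset.mem_filter.1 hI).2]
      rfl
    rw [h2, add_zero]
    exact Finset.sum_subtype _ (fun I => by
      rw [Finset.mem_filter]; exact ⟨fun h => h.2, fun h => ⟨Finset.mem_univ _, h⟩⟩) _
  rw [h1]
  have h3 : ∑ I : {I : Fin p → Fin N // Function.Injective I}, (T I.1 I.1).re =
      ∑ e ∈ Finset.univ.image g, (T (fun i => e (Sum.inl i)) (fun i => e (Sum.inl i))).re := by
    rw [Finset.sum_image (fun I _ I' _ h => hginj h)]
    refine Finset.sum_congr rfl fun I _ => ?_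
    have h4 : (fun i => g I (Sum.inl i)) = I.1 := funext (hgs I)
    rw [h4]
  rw [h3]
  exact Finset.sum_le_sum_of_subset_of_nonneg (Finset.subset_univ _)
    fun e _ _ => diag_nonneg T hP _

theorem pf_RTR (hW9 : T_W9) (hA1 : T_A1) (hA2 : T_A2) (hA7 : T_A7) (hA10 : T_A10) :
    T_RTR := by
  intro N p q hN
  refine ⟨((q : ℝ) + 1) * 2 ^ q * 4, by positivity, ?_⟩
  intro S hS Y hY
  set T := S Y with hTd
  have hYm : Y ∈ ({0}ᶜ : Set (Fin N → ℂ)) := hY
  have hP : Psd T := hS.cp.psd Y hYm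
  have hR : ∀ (π : Equiv.Perm (Fin p)) I J,
      T I (J ∘ π) = ((Equiv.Perm.sign π : ℤ) : ℂ) * T I J := hS.cp.altR Y hYm
  have hK : KilL Y T := fun I J j => hS.basicL Y hY I J j
  have h1 := tr_le (m := q + 1) (by omega) T hP hR
  have h2 := mix_id (m := q + 1) T hR
  have h3 := mix_one hA1 hA2 hA7 hA10 hY T hK (Fin.last q) Finset.univ
  have h4 : (fun j : Fin (q + 1) => if j ∈ (Finset.univ : Finset (Fin (q + 1))) then
      (1 : Matrix (Fin N) (Fin N) ℂ) else PJ Y) = fun _ => 1 := by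
    ext1 j
    rw [if_pos (Finset.mem_univ j)]
  rw [h4, h2, Finset.card_univ, Fintype.card_fin] at h3
  have hn := nsq_ne hY
  have hnp := nsq_pos' hY
  set c : Fin (q + 1) → ℂ := fun j => if j = Fin.last q then (4 * (nsq Y : ℂ))⁻¹ else
    (2 * (nsq Y : ℂ))⁻¹ with hc
  have h5 : (Fin.snoc (α := fun _ => Matrix (Fin N) (Fin N) ℂ)
      (fun _ : Fin q => hessR ell Y) (Rad Y)) =
      fun j => c j • (if j = Fin.last q then RR Y else PJ Y) := by
    ext1 j
    refine Fin.lastCases ?_ (fun i => ?_) j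
    · rw [Fin.snoc_last, hc]
      simp only [if_true]
      ext a b
      rw [Matrix.smul_apply, smul_eq_mul]
      unfold Rad RR out
      field_simp
    · rw [Fin.snoc_castSucc, hc]
      have hne : (Fin.castSucc i) ≠ Fin.last q := (Fin.castSucc_lt_last i).ne
      simp only [hne, if_false]
      ext a b
      rw [Matrix.smul_apply, smul_eq_mul, hess_PJ hW9 hY]
  have h6 : ∏ j, c j = (2 * (nsq Y : ℂ))⁻¹ ^ q * (4 * (nsq Y : ℂ))⁻¹ := by
    rw [Fin.prod_univ_castSucc, hc]
    congr 1
    · rw [Finset.prod_congr rfl (g := fun _ => (2 * (nsq Y : ℂ))⁻¹)]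
      · rw [Finset.prod_const, Finset.card_univ, Fintype.card_fin]
      · intro i _
        exact if_neg (Fin.castSucc_lt_last i).ne
    · exact if_pos rfl
  set D := mixD T (fun j : Fin (q + 1) => if j = Fin.last q then RR Y else PJ Y) with hD
  have h7 : mixD T (Fin.snoc (α := fun _ => Matrix (Fin N) (Fin N) ℂ)
      (fun _ : Fin q => hessR ell Y) (Rad Y)) =
      (2 * (nsq Y : ℂ))⁻¹ ^ q * (4 * (nsq Y : ℂ))⁻¹ * D := by
    rw [h5, mix_smul, h6]
  have h8 : Q S (fun _ : Fin q => ell) Y =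
      (2 * nsq Y)⁻¹ ^ q * (4 * nsq Y)⁻¹ * D.re := by
    unfold Q
    rw [← hTd, h7]
    rw [show ((2 * (nsq Y : ℂ))⁻¹ ^ q * (4 * (nsq Y : ℂ))⁻¹ : ℂ) =
      (((2 * nsq Y)⁻¹ ^ q * (4 * nsq Y)⁻¹ : ℝ) : ℂ) by push_cast; rfl, Complex.re_ofReal_mul]
  have h9 : (p.factorial : ℝ) * ∑ e : (Fin p ⊕ Fin (q + 1)) ≃ Fin N,
        (T (fun i => e (Sum.inl i)) (fun i => e (Sum.inl i))).re = ((q : ℝ) + 1) * D.re := by
    have h10 := congrArg Complex.re h3
    rw [show ((p.factorial : ℂ)) = ((p.factorial : ℝ) : ℂ) by push_cast; rfl,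
      Complex.re_ofReal_mul, Complex.re_sum,
      show (((q + 1 : ℕ) : ℂ)) = (((q : ℝ) + 1 : ℝ) : ℂ) by push_cast; rfl,
      Complex.re_ofReal_mul] at h10
    exact h10
  have h11 : 0 ≤ ∑ e : (Fin p ⊕ Fin (q + 1)) ≃ Fin N,
      (T (fun i => e (Sum.inl i)) (fun i => e (Sum.inl i))).re :=
    Finset.sum_nonneg fun e _ => diag_nonneg T hP _
  have h12 : (1 : ℝ) ≤ (p.factorial : ℝ) := by exact_mod_cast Nat.factorial_pos p
  have h13 : N - p = q + 1 := by omega
  rw [h13, h8]
  have h14 : ((q : ℝ) + 1) * 2 ^ q * 4 * nsq Y ^ (q + 1) *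
      ((2 * nsq Y)⁻¹ ^ q * (4 * nsq Y)⁻¹ * D.re) = ((q : ℝ) + 1) * D.re := by
    rw [inv_pow, mul_pow]
    field_simp
    ring
  rw [h14, ← h9]
  refine le_trans h1 ?_
  nlinarith

end

end Pool.Agent.H97.EHD
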