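import Pool.Agent.H92.EHD.TR

/-!
Board ehd_modules: the projection onto the alternating tensors killed by `y`.
-/

namespace Pool.Agent.H97.EHD

open scoped BigOperators ComplexConjugate ContDiff ComplexOrder
open MeasureTheory Pool.Agent.H92.EQ Pool.Agent.H92.EHD

noncomputable section

variable {N : ℕ}

/-- The orthogonal projection to the complement of `y`. -/
def PJ (y : Fin N → ℂ) : Matrix (Fin N) (Fin N) ℂ :=
  fun a b => (if a = b then 1 else 0) - conj (y a) * y b / (nsq y : ℂ)

/-- The determinants. -/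
def DD (y : Fin N → ℂ) (s : ℕ) (I J : Fin s → Fin N) : ℂ :=
  (Matrix.of fun a b => PJ y (I a) (J b)).det

lemma nsq_pos' {y : Fin N → ℂ} (hy : y ≠ 0) : 0 < nsq y := by
  unfold nsq
  obtain ⟨i, hi⟩ := Function.ne_iff.1 hy
  exact Finset.sum_pos' (fun i _ => by positivity)
    ⟨i, Finset.mem_univ i, by
      have : 0 < ‖y i‖ := norm_pos_iff.2 hi
      positivity⟩

lemma nsq_ne {y : Fin N → ℂ} (hy : y ≠ 0) : (nsq y : ℂ) ≠ 0 := by
  exact_mod_cast (nsq_pos' hy).ne'

lemma sum_mul_conj (y : Fin N → ℂ) : ∑ a, y a * conj (y a) = (nsq y : ℂ) := by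
  unfold nsq
  push_cast
  refine Finset.sum_congr rfl fun a _ => ?_
  rw [Complex.mul_conj, Complex.normSq_eq_norm_sq]
  push_cast
  rfl

lemma PJ_conj (y : Fin N → ℂ) (a b : Fin N) : conj (PJ y a b) = PJ y b a := by
  unfold PJ
  rw [map_sub, map_div₀, map_mul, Complex.conj_conj, Complex.conj_ofReal, mul_comm (y a)]
  congr 1
  by_cases h : a = b
  · rw [if_pos h, if_pos h.symm, map_one]
  · rw [if_neg h, if_neg (fun h' => h h'.symm), map_zero]

lemma PJ_kill {y : Fin N → ℂ} (hy : y ≠ 0) (b : Fin N) : ∑ a, y a * PJ y a b = 0 := by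
  unfold PJ
  simp only [mul_sub, mul_ite, mul_one, mul_zero, Finset.sum_sub_distrib]
  rw [Finset.sum_ite_eq' Finset.univ b y, if_pos (Finset.mem_univ b)]
  have h1 : ∑ a, y a * (conj (y a) * y b / (nsq y : ℂ)) =
      (∑ a, y a * conj (y a)) * (y b / (nsq y : ℂ)) := by
    rw [Finset.sum_mul]
    refine Finset.sum_congr rfl fun a _ => ?_
    ring
  rw [h1, sum_mul_conj, mul_div_cancel₀ _ (nsq_ne hy), sub_self]

lemma hess_PJ (hW9 : T_W9) {y : Fin N → ℂ} (hy : y ≠ 0) (a b : Fin N) :
    hessR ell y a b = (2 * (nsq y : ℂ))⁻¹ * PJ y a b := by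
  have hn := nsq_ne hy
  rw [((hW9 (Fin N)).2 y hy).2.2.1 a b]
  unfold PJ
  by_cases h : a = b
  · rw [if_pos h]
    field_simp
  · rw [if_neg h]
    field_simp

/-- killed on the left -/
def Kil {s : ℕ} (y : Fin N → ℂ) (V : (Fin s → Fin N) → ℂ) : Prop :=
  ∀ I (j : Fin s), ∑ a, y a * V (Function.update I j a) = 0

lemma sum_cons {s : ℕ} (f : (Fin (s + 1) → Fin N) → ℂ) :
    ∑ K, f K = ∑ a : Fin N, ∑ K : Fin s → Fin N,
      f (Fin.cons (α := fun _ => Fin N) a K) := by
  rw [← (Fin.consEquiv (fun _ : Fin (s + 1) => Fin N)).sum_comp, Fintype.sum_prod_type]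
  rfl

lemma fix_PJ {y : Fin N → ℂ} : ∀ (s : ℕ) (V : (Fin s → Fin N) → ℂ), Kil y V →
    ∀ I, ∑ K : Fin s → Fin N, (∏ b, PJ y (I b) (K b)) * V K = V I := by
  intro s
  induction s with
  | zero =>
    intro V _ I
    rw [Fintype.sum_unique]
    simp only [Finset.univ_eq_empty, Finset.prod_empty, one_mul]
    congr 1
    exact Subsingleton.elim _ _
  | succ s ih =>
    intro V hV I
    rw [sum_cons]
    have h1 : ∀ a : Fin N, ∑ K : Fin s → Fin N,
        (∏ b, PJ y (I b) (Fin.cons (α := fun _ => Fin N) a K b)) *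
          V (Fin.cons (α := fun _ => Fin N) a K) =
        PJ y (I 0) a * V (Fin.cons (α := fun _ => Fin N) a (Fin.tail I)) := by
      intro a
      have h2 := ih (fun K => V (Fin.cons (α := fun _ => Fin N) a K)) (by
        intro K j
        have h3 := hV (Fin.cons (α := fun _ => Fin N) a K) j.succ
        rw [← h3]
        refine Finset.sum_congr rfl fun b _ => ?_
        show y b * V (Fin.cons (α := fun _ => Fin N) a (Function.update K j b)) = _
        rw [Fin.cons_update]) (Fin.tail I)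
      rw [← h2, Finset.mul_sum]
      refine Finset.sum_congr rfl fun K _ => ?_
      rw [Fin.prod_univ_succ, Fin.cons_zero]
      simp only [Fin.cons_succ]
      rw [mul_assoc]
      rfl
    rw [Finset.sum_congr rfl fun a _ => h1 a]
    have h4 : ∀ a : Fin N, Fin.cons (α := fun _ => Fin N) a (Fin.tail I) =
        Function.update I 0 a := by
      intro a
      conv_rhs => rw [← Fin.cons_self_tail I]
      rw [Fin.update_cons_zero]
    have h5 := hV I 0
    simp only [h4]
    unfold PJ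
    simp only [sub_mul, Finset.sum_sub_distrib, ite_mul, one_mul, zero_mul]
    rw [Finset.sum_ite_eq Finset.univ (I 0), if_pos (Finset.mem_univ _), Function.update_eq_self]
    have h6 : ∑ a, conj (y (I 0)) * y a / (nsq y : ℂ) * V (Function.update I 0 a) =
        conj (y (I 0)) / (nsq y : ℂ) * ∑ a, y a * V (Function.update I 0 a) := by
      rw [Finset.mul_sum]
      refine Finset.sum_congr rfl fun a _ => ?_
      ring
    rw [h6, h5, mul_zero, sub_zero]

/-- alternating -/
def Alt {s : ℕ} (V : (Fin s → Fin N) → ℂ) : Prop :=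
  ∀ (π : Equiv.Perm (Fin s)) I, V (I ∘ π) = ((Equiv.Perm.sign π : ℤ) : ℂ) * V I

lemma sgn_mul {s : ℕ} (π : Equiv.Perm (Fin s)) :
    ((Equiv.Perm.sign π : ℤ) : ℂ) * ((Equiv.Perm.sign π : ℤ) : ℂ) = 1 := by
  rcases Int.units_eq_one_or (Equiv.Perm.sign π) with h | h <;> rw [h] <;> norm_num

lemma fix_DD {y : Fin N → ℂ} {s : ℕ} (V : (Fin s → Fin N) → ℂ) (hV : Kil y V) (hA : Alt V)
    (I : Fin s → Fin N) : ∑ K, DD y s I K * V K = (s.factorial : ℂ) * V I := by
  unfold DD
  simp only [Matrix.det_apply', Matrix.of_apply, Finset.sum_mul]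
  rw [Finset.sum_comm]
  have h1 : ∀ σ : Equiv.Perm (Fin s), ∑ K : Fin s → Fin N,
      ((Equiv.Perm.sign σ : ℤ) : ℂ) * (∏ i, PJ y (I (σ i)) (K i)) * V K = V I := by
    intro σ
    have h2 := fix_PJ s V hV (I ∘ σ)
    rw [hA σ I] at h2
    simp only [mul_assoc]
    rw [← Finset.mul_sum]
    have h3 : ∑ K : Fin s → Fin N, (∏ i, PJ y (I (σ i)) (K i)) * V K =
        ((Equiv.Perm.sign σ : ℤ) : ℂ) * V I := h2
    rw [h3, ← mul_assoc, sgn_mul, one_mul]
  rw [Finset.sum_congr rfl fun σ _ => h1 σ, Finset.sum_const, Finset.card_univ,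
    Fintype.card_perm, Fintype.card_fin, nsmul_eq_mul]

lemma DD_conj (y : Fin N → ℂ) (s : ℕ) (I J : Fin s → Fin N) :
    conj (DD y s I J) = DD y s J I := by
  unfold DD
  rw [← Matrix.det_transpose (Matrix.of fun a b => PJ y (J a) (I b))]
  have h := RingHom.map_det (starRingEnd ℂ) (Matrix.of fun a b => PJ y (I a) (J b))
  rw [h]
  congr 1
  ext a b
  rw [RingHom.mapMatrix_apply, Matrix.map_apply, Matrix.of_apply, Matrix.transpose_apply,
    Matrix.of_apply, PJ_conj]

lemma DD_alt (y : Fin N → ℂ) (s : ℕ) (J : Fin s → Fin N) : Alt (fun I => DD y s I J) := by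
  intro π I
  unfold DD
  rw [← Matrix.det_permute π (Matrix.of fun a b => PJ y (I a) (J b))]
  rfl

lemma DD_kil {y : Fin N → ℂ} (hy : y ≠ 0) (s : ℕ) (J : Fin s → Fin N) :
    Kil y (fun I => DD y s I J) := by
  intro I j
  have h1 : ∀ a : Fin N, DD y s (Function.update I j a) J =
      Matrix.cramer (Matrix.of fun a b => PJ y (I a) (J b)).transpose
        (fun b => PJ y a (J b)) j := by
    intro a
    rw [Matrix.cramer_transpose_apply]
    unfold DD
    congr 1
    ext i b
    rw [Matrix.of_apply]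
    by_cases h : i = j
    · subst h
      rw [Function.update_self, Matrix.updateRow_self]
    · rw [Function.update_of_ne h, Matrix.updateRow_ne h, Matrix.of_apply]
  show ∑ a, y a * DD y s (Function.update I j a) J = 0
  simp only [h1]
  have h2 : ∑ a, y a * Matrix.cramer (Matrix.of fun a b => PJ y (I a) (J b)).transpose
        (fun b => PJ y a (J b)) j =
      Matrix.cramer (Matrix.of fun a b => PJ y (I a) (J b)).transpose
        (∑ a, y a • fun b => PJ y a (J b)) j := by
    rw [map_sum, Finset.sum_apply]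
    refine Finset.sum_congr rfl fun a _ => ?_
    rw [map_smul]
    rfl
  rw [h2]
  have h3 : (∑ a, y a • fun b => PJ y a (J b)) = (0 : Fin s → ℂ) := by
    ext b
    rw [Finset.sum_apply]
    exact PJ_kill hy (J b)
  rw [h3, map_zero]
  rfl

lemma om_DD (hW9 : T_W9) {y : Fin N → ℂ} (hy : y ≠ 0) : ∀ (s : ℕ) (I J : Fin s → Fin N),
    ((s.factorial : ℂ) * 2 ^ s * (nsq y : ℂ) ^ s) * om N s y I J = DD y s I J := by
  intro s
  induction s with
  | zero =>
    intro I J
    unfold DD
    simp [om]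
  | succ s ih =>
    intro I J
    have hn := nsq_ne hy
    have h1 : om N (s + 1) y I J = wedge (om N s y) (hessR ell y) I J := rfl
    have h2 : DD y (s + 1) I J * ((s : ℂ) + 1) = ∑ a : Fin (s + 1), ∑ b : Fin (s + 1),
        (-1 : ℂ) ^ ((a : ℕ) + (b : ℕ)) * DD y s (I ∘ a.succAbove) (J ∘ b.succAbove) *
          PJ y (I a) (J b) := by
      have h3 : ∀ a : Fin (s + 1), ∑ b : Fin (s + 1),
          (-1 : ℂ) ^ ((a : ℕ) + (b : ℕ)) * DD y s (I ∘ a.succAbove) (J ∘ b.succAbove) *
          PJ y (I a) (J b) = DD y (s + 1) I J := by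
        intro a
        unfold DD
        rw [Matrix.det_succ_row _ a]
        refine Finset.sum_congr rfl fun b _ => ?_
        rw [mul_right_comm]
        rfl
      rw [Finset.sum_congr rfl fun a _ => h3 a, Finset.sum_const, Finset.card_univ,
        Fintype.card_fin, nsmul_eq_mul]
      push_cast
      ring
    have h4 : (((s + 1).factorial : ℂ) * 2 ^ (s + 1) * (nsq y : ℂ) ^ (s + 1)) *
        om N (s + 1) y I J * ((s : ℂ) + 1) = ∑ a : Fin (s + 1), ∑ b : Fin (s + 1),
        (-1 : ℂ) ^ ((a : ℕ) + (b : ℕ)) * DD y s (I ∘ a.succAbove) (J ∘ b.succAbove) *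
          PJ y (I a) (J b) := by
      rw [h1]
      unfold wedge
      rw [Finset.mul_sum, Finset.mul_sum, Finset.sum_mul]
      refine Finset.sum_congr rfl fun a _ => ?_
      rw [Finset.mul_sum, Finset.mul_sum, Finset.sum_mul]
      refine Finset.sum_congr rfl fun b _ => ?_
      rw [← ih (I ∘ a.succAbove) (J ∘ b.succAbove), hess_PJ hW9 hy]
      have hs : ((s : ℂ) + 1) ≠ 0 := by exact_mod_cast Nat.succ_ne_zero s
      rw [Nat.factorial_succ]
      push_cast
      field_simp
      ring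
    have hs : ((s : ℂ) + 1) ≠ 0 := by exact_mod_cast Nat.succ_ne_zero s
    exact mul_right_cancel₀ hs (h4.trans h2.symm)

end

end Pool.Agent.H97.EHD
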